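import Pool.Agent.H78.HC.Defs
import Pool.Agent.H52.WP.ShE

set_option autoImplicit false

/-!
PROJECT HB (MP_bf82d2_ag): the functions of `RH` are constant.
-/

namespace Pool.Agent.H52.HC

open Finset Module
open Pool.Agent.H78.HC
open Pool.Agent.H78.WL (sm sm_apply sm_const Adj_sm)
open Pool.Agent.H52.WP (wallE sm_form)

variable {G : Type} [Group G] [Fintype G]

/-- the stabiliser of `f` -/
def stab (f : G → ℂ) : Subgroup G where
  carrier := {g | ∀ z, f (z * g) = f z}
  mul_mem' := by
    intro g k hg hk z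
    rw [← mul_assoc, hk, hg]
  one_mem' := by
    intro z
    rw [mul_one]
  inv_mem' := by
    intro g hg z
    have h2 := hg (z * g⁻¹)
    rw [inv_mul_cancel_right] at h2
    exact h2.symm

/-- `E_x E_y f = |x| |y| f` and `f` invariant under `x`: then `f` is invariant under `y` -/
theorem inv_y {x y : G} {f : G → ℂ} (hx : ∀ g, f (g * x) = f g)
    (hD : ∀ g, wallE x y f g = (orderOf x * orderOf y : ℂ) * f g) (g : G) : f (g * y) = f g := by
  classical
  have hA : (0 : ℝ) < Nat.card (Subgroup.zpowers x) := by exact_mod_cast Nat.card_pos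
  have hinv : ∀ h ∈ Subgroup.zpowers x, ∀ z, f (z * h) = f z := by
    have h1 : Subgroup.zpowers x ≤ stab f := by
      rw [Subgroup.zpowers_le]
      exact hx
    intro h hh
    exact h1 hh
  have h1 : ∀ g, wallE x y f g = sm (Subgroup.zpowers x) (sm (Subgroup.zpowers y) f) g := by
    intro g
    rw [sm_apply]
    unfold wallE
    refine sum_congr rfl fun h _ => ?_
    rw [sm_apply]
  have h3 : ∀ g, sm (Subgroup.zpowers x) (fun g => star (f g)) g =
      Nat.card (Subgroup.zpowers x) * star (f g) := by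
    intro g
    refine sm_const _ (fun g => star (f g)) (fun z h hh => ?_) g
    show star (f (z * h)) = star (f z)
    rw [hinv h hh z]
  have h4 : ∑ g, wallE x y f g * star (f g) = Nat.card (Subgroup.zpowers x) *
      ∑ g, sm (Subgroup.zpowers y) f g * star (f g) := by
    rw [sum_congr rfl fun g _ => by rw [h1 g], Adj_sm (Subgroup.zpowers x)
      (sm (Subgroup.zpowers y) f) (fun g => star (f g)),
      sum_congr rfl fun g _ => by rw [h3 g], mul_sum]
    refine sum_congr rfl fun g _ => ?_
    ring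
  have h5 : (∑ g, wallE x y f g * star (f g)).re = Nat.card (Subgroup.zpowers x) *
      Nat.card (Subgroup.zpowers y) * ∑ g, ‖f g‖ ^ 2 := by
    have h6 : ∀ g, wallE x y f g * star (f g) = ((Nat.card (Subgroup.zpowers x) *
        Nat.card (Subgroup.zpowers y) * ‖f g‖ ^ 2 : ℝ) : ℂ) := by
      intro g
      rw [hD g, mul_assoc, Complex.star_def, Complex.mul_conj, Complex.normSq_eq_norm_sq,
        Nat.card_zpowers, Nat.card_zpowers]
      push_cast
      ring
    rw [sum_congr rfl fun g _ => h6 g, ← Complex.ofReal_sum, Complex.ofReal_re, mul_sum]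
  have h7 : (∑ g, wallE x y f g * star (f g)).re = Nat.card (Subgroup.zpowers x) *
      (∑ g, sm (Subgroup.zpowers y) f g * star (f g)).re := by
    rw [h4, ← Complex.ofReal_natCast, Complex.re_ofReal_mul]
  rw [h5, sm_form (Subgroup.zpowers y) f, mul_assoc] at h7
  have h8 := mul_left_cancel₀ hA.ne' h7
  have h9 : ∑ x, ∑ h : Subgroup.zpowers y, ‖f (x * h) - f x‖ ^ 2 = 0 := by linarith
  have h10 := (sum_eq_zero_iff_of_nonneg fun x _ => sum_nonneg fun (h : Subgroup.zpowers y) _ =>
    sq_nonneg ‖f (x * h) - f x‖).1 h9 g (mem_univ _)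
  have h11 := (sum_eq_zero_iff_of_nonneg fun (h : Subgroup.zpowers y) _ =>
    sq_nonneg ‖f (g * h) - f g‖).1 h10 ⟨y, Subgroup.mem_zpowers y⟩ (mem_univ _)
  rw [sq_eq_zero_iff, norm_eq_zero] at h11
  exact sub_eq_zero.1 h11

/-- `RH` does not change if `y` is multiplied by an element of `H` -/
theorem RH_mul {H : Subgroup G} {x y k : G} (hk : k ∈ H) {f : G → ℂ} (hf : f ∈ RH H x y) :
    f ∈ RH H x (k * y) := by
  classical
  refine ⟨hf.1, fun g => ?_⟩
  have h1 := hf.2 g
  rw [h1]
  refine Fintype.sum_equiv (Equiv.mulRight (⟨k, hk⟩ : H)⁻¹) _ _ fun h => ?_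
  simp [mul_assoc]

theorem HH_slide {x y s : G} {l : List G} :
    HH x (x⁻¹ * s * x * y) ((x⁻¹ * s * x) :: l) = HH x y (l ++ [s]) := by
  have hx1 : x ∈ HH x (x⁻¹ * s * x * y) ((x⁻¹ * s * x) :: l) :=
    Subgroup.subset_closure (by simp)
  have hs1 : x⁻¹ * s * x ∈ HH x (x⁻¹ * s * x * y) ((x⁻¹ * s * x) :: l) :=
    Subgroup.subset_closure (by simp)
  have hx2 : x ∈ HH x y (l ++ [s]) := Subgroup.subset_closure (by simp)
  have hs2 : s ∈ HH x y (l ++ [s]) := Subgroup.subset_closure (by simp)
  have hs3 : x⁻¹ * s * x ∈ HH x y (l ++ [s]) :=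
    Subgroup.mul_mem _ (Subgroup.mul_mem _ (Subgroup.inv_mem _ hx2) hs2) hx2
  have hy2 : y * x * y⁻¹ ∈ HH x y (l ++ [s]) := Subgroup.subset_closure (by simp)
  have hy1 : (x⁻¹ * s * x * y) * x * (x⁻¹ * s * x * y)⁻¹ ∈
      HH x (x⁻¹ * s * x * y) ((x⁻¹ * s * x) :: l) := Subgroup.subset_closure (by simp)
  apply le_antisymm
  · refine (Subgroup.closure_le _).2 ?_
    rintro z (hz | hz)
    · rcases hz with hz | hz
      · rw [hz]; exact hx2
      · rw [Set.mem_singleton_iff] at hz
        have h1 : z = (x⁻¹ * s * x) * (y * x * y⁻¹) * (x⁻¹ * s * x)⁻¹ := by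
          rw [hz]
          group
        rw [h1]
        exact Subgroup.mul_mem _ (Subgroup.mul_mem _ hs3 hy2) (Subgroup.inv_mem _ hs3)
    · rcases List.mem_cons.1 hz with h1 | h1
      · rw [h1]; exact hs3
      · exact Subgroup.subset_closure (Or.inr (List.mem_append_left _ h1))
  · refine (Subgroup.closure_le _).2 ?_
    rintro z (hz | hz)
    · rcases hz with hz | hz
      · rw [hz]; exact hx1
      · rw [Set.mem_singleton_iff] at hz
        have h1 : z = (x⁻¹ * s * x)⁻¹ * ((x⁻¹ * s * x * y) * x * (x⁻¹ * s * x * y)⁻¹) *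
            (x⁻¹ * s * x) := by
          rw [hz]
          group
        rw [h1]
        exact Subgroup.mul_mem _ (Subgroup.mul_mem _ (Subgroup.inv_mem _ hs1) hy1) hs1
    · rcases List.mem_append.1 hz with h1 | h1
      · exact Subgroup.subset_closure (Or.inr (List.mem_cons_of_mem _ h1))
      · rw [List.mem_singleton.1 h1]
        have h2 := Subgroup.mul_mem _ (Subgroup.mul_mem _ hx1 hs1) (Subgroup.inv_mem _ hx1)
        have h3 : x * (x⁻¹ * s * x) * x⁻¹ = s := by group
        rwa [h3] at h2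

/-- moving an element to the end does not change `HH` -/
theorem HH_move {x y s : G} {l m : List G} :
    HH x y ((l ++ m.map (fun t => s * t * s⁻¹)) ++ [s]) = HH x y (l ++ s :: m) := by
  have hs1 : s ∈ HH x y ((l ++ m.map (fun t => s * t * s⁻¹)) ++ [s]) :=
    Subgroup.subset_closure (Or.inr (by simp))
  have hs2 : s ∈ HH x y (l ++ s :: m) := Subgroup.subset_closure (Or.inr (by simp))
  apply le_antisymm
  · refine (Subgroup.closure_le _).2 ?_
    rintro z (hz | hz)
    · exact Subgroup.subset_closure (Or.inl hz)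
    · rcases List.mem_append.1 hz with h1 | h1
      · rcases List.mem_append.1 h1 with h2 | h2
        · exact Subgroup.subset_closure (Or.inr (List.mem_append_left _ h2))
        · obtain ⟨t, ht, rfl⟩ := List.mem_map.1 h2
          have h3 : t ∈ HH x y (l ++ s :: m) := Subgroup.subset_closure (Or.inr (by
            show t ∈ l ++ s :: m
            simp [ht]))
          exact Subgroup.mul_mem _ (Subgroup.mul_mem _ hs2 h3) (Subgroup.inv_mem _ hs2)
      · rw [List.mem_singleton.1 h1]; exact hs2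
  · refine (Subgroup.closure_le _).2 ?_
    rintro z (hz | hz)
    · exact Subgroup.subset_closure (Or.inl hz)
    · rcases List.mem_append.1 hz with h1 | h1
      · exact Subgroup.subset_closure (Or.inr (by
          show z ∈ (l ++ m.map (fun t => s * t * s⁻¹)) ++ [s]
          simp [h1]))
      · rcases List.mem_cons.1 h1 with h2 | h2
        · rw [h2]; exact hs1
        · have h3 : s * z * s⁻¹ ∈ HH x y ((l ++ m.map (fun t => s * t * s⁻¹)) ++ [s]) :=
            Subgroup.subset_closure (Or.inr (by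
              show s * z * s⁻¹ ∈ (l ++ m.map (fun t => s * t * s⁻¹)) ++ [s]
              have h4 : s * z * s⁻¹ ∈ m.map (fun t => s * t * s⁻¹) :=
                List.mem_map.2 ⟨z, h2, rfl⟩
              exact List.mem_append_left _ (List.mem_append_right _ h4)))
          have h4 := Subgroup.mul_mem _ (Subgroup.mul_mem _ (Subgroup.inv_mem _ hs1) h3) hs1
          have h5 : s⁻¹ * (s * z * s⁻¹) * s = z := by group
          rwa [h5] at h4

variable {x₀ y₀ x y : G} {l₀ l : List G}

/-- for every translate with `x ≠ 1` the functions of `RH` are constant -/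
theorem RH_const (h0 : ∀ K : Subgroup G, x₀ ∈ K → y₀ ∈ K → (∀ s ∈ l₀, s ∈ K) → K = ⊤)
    (h : ShimH x₀ y₀ l₀) (ht : Tr x₀ y₀ l₀ x y l) (hx : x ≠ 1) :
    ∀ f ∈ RH (HH x y l) x y, ∀ g, f g = f 1 := by
  intro f hf
  have hy : ∀ g, f (g * y) = f g := inv_y hf.1 (h.wall x y l ht hx f hf)
  have hs : ∀ s ∈ l, ∀ g, f (g * s) = f g := by
    intro s hs
    obtain ⟨a, b, rfl⟩ := List.append_of_mem hs
    have h1 := Tr.moveEnd b a ht
    have h2 := Tr.slide h1
    have hxH : x ∈ HH x y (a ++ s :: b) := Subgroup.subset_closure (Or.inl (by simp))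
    have hsH : s ∈ HH x y (a ++ s :: b) := Subgroup.subset_closure (Or.inr (by simp))
    have h3 : f ∈ RH (HH x (x⁻¹ * s * x * y) ((x⁻¹ * s * x) ::
        (a ++ b.map (fun t => s * t * s⁻¹)))) x (x⁻¹ * s * x * y) := by
      rw [HH_slide, HH_move]
      exact RH_mul (Subgroup.mul_mem _ (Subgroup.mul_mem _ (Subgroup.inv_mem _ hxH) hsH) hxH) hf
    have h4 := inv_y h3.1 (h.wall _ _ _ h2 hx f h3)
    have hstab : x⁻¹ * s * x ∈ stab f := by
      have h5 : x⁻¹ * s * x * y ∈ stab f := h4
      have h6 : y ∈ stab f := hy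
      have h7 := (stab f).mul_mem h5 ((stab f).inv_mem h6)
      rwa [mul_inv_cancel_right] at h7
    have h8 : x ∈ stab f := hf.1
    have h9 := (stab f).mul_mem ((stab f).mul_mem h8 hstab) ((stab f).inv_mem h8)
    have h10 : x * (x⁻¹ * s * x) * x⁻¹ = s := by group
    rw [h10] at h9
    exact h9
  have hK : stab f = ⊤ := Tr.gen h0 ht (stab f) hf.1 hy hs
  intro g
  have h1 : g ∈ stab f := by
    rw [hK]
    exact Subgroup.mem_top g
  have h2 := (show ∀ z, f (z * g) = f z from h1) 1
  rwa [one_mul] at h2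

end Pool.Agent.H52.HC
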